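import Pool.Agent.Work.MP_75c89d_seeds.Core

/-!
# Euclid-Mullin processes with a seed: averages over the seed
-/

set_option autoImplicit false

namespace Pool.Agent.Work.MP_75c89d_seeds

open Finset Polynomial

section modulus

/-- the product of the admissible primes up to `Y` -/
noncomputable def MM (A : ℕ → Prop) (Y : ℕ) : ℕ := by
  classical
  exact ∏ q ∈ (range (Y + 1)).filter A, q

variable {A : ℕ → Prop} {g : ℤ[X]}

theorem MM_succ_of (Y : ℕ) (h : A (Y + 1)) : MM A (Y + 1) = MM A Y * (Y + 1) := by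
  classical
  unfold MM
  rw [Finset.range_add_one (n := Y + 1), Finset.filter_insert, if_pos h, Finset.prod_insert, mul_comm]
  simp

theorem MM_succ_of_not (Y : ℕ) (h : ¬ A (Y + 1)) : MM A (Y + 1) = MM A Y := by
  classical
  unfold MM
  rw [Finset.range_add_one (n := Y + 1), Finset.filter_insert, if_neg h]

theorem dvd_MM {q Y : ℕ} (hq : A q) (hY : q ≤ Y) : q ∣ MM A Y := by
  classical
  unfold MM
  exact Finset.dvd_prod_of_mem (fun q => q) (Finset.mem_filter.mpr ⟨Finset.mem_range.mpr (by omega), hq⟩)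

theorem MM_pos (h : Good A g) (Y : ℕ) : 0 < MM A Y := by
  classical
  unfold MM
  exact Finset.prod_pos fun q hq => (h.prime q (Finset.mem_filter.mp hq).2).pos

theorem not_dvd_MM (h : Good A g) {q Y : ℕ} (hq : A q) (hY : Y < q) : ¬ q ∣ MM A Y := by
  classical
  unfold MM
  intro hd
  rw [(h.prime q hq).prime.dvd_finsetProd_iff] at hd
  obtain ⟨s, hs, hd⟩ := hd
  rw [Finset.mem_filter, Finset.mem_range] at hs
  have := (Nat.prime_dvd_prime_iff_eq (h.prime q hq) (h.prime s hs.2)).mp hd
  omega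

theorem Cg_add (Y c j : ℕ) : Cg A Y (c + j * MM A Y) c := by
  intro q hq hY
  have h1 : (q : ℤ) ∣ (MM A Y : ℤ) := by exact_mod_cast dvd_MM hq hY
  rw [Int.modEq_iff_dvd]
  push_cast
  rw [show (c : ℤ) - (c + j * (MM A Y : ℤ)) = -((j : ℤ) * (MM A Y : ℤ)) by ring]
  exact (h1.mul_left _).neg_right

end modulus

section hits

variable {A : ℕ → Prop} {g : ℤ[X]}

/-- the number of lifts which are hit by the new prime -/
theorem card_hits (h : Good A g) {q Y c n : ℕ} (hq : A q) (hY : Y < q) (hn : ¬ q ∣ n) :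
    (∃ r : ℤ, (q : ℤ) ∣ g.eval r) →
    (∃ j < q, Hit A g (c + j * MM A Y) n q) ∧
    ∀ S : Finset ℕ, (∀ j ∈ S, j < q ∧ Hit A g (c + j * MM A Y) n q) → S.card ≤ g.natDegree := by
  rintro ⟨r, hr⟩
  have hqp := h.prime q hq
  have : Fact q.Prime := ⟨hqp⟩
  have hM : ((MM A Y : ℕ) : ZMod q) ≠ 0 := by
    rw [Ne, ZMod.natCast_eq_zero_iff]
    exact not_dvd_MM h hq hY
  have hn' : ((n : ℕ) : ZMod q) ≠ 0 := by
    rw [Ne, ZMod.natCast_eq_zero_iff]
    exact hn
  have hhit : ∀ j : ℕ, Hit A g (c + j * MM A Y) n q ↔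
      (g.map (Int.castRingHom (ZMod q))).eval (((c : ZMod q) + j * (MM A Y : ZMod q)) * n) = 0 := by
    intro j
    unfold Hit
    rw [and_iff_right hq, ← ZMod.intCast_zmod_eq_zero_iff_dvd]
    have h1 := Polynomial.eval_intCast_map (Int.castRingHom (ZMod q)) g
      (((c + j * MM A Y : ℕ) : ℤ) * n)
    rw [eq_intCast, Int.cast_id] at h1
    rw [← h1]
    push_cast
    rfl
  constructor
  · set w : ZMod q := ((r : ZMod q) * (n : ZMod q)⁻¹ - c) * (MM A Y : ZMod q)⁻¹ with hw
    refine ⟨w.val, ZMod.val_lt w, ?_⟩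
    rw [hhit, ZMod.natCast_val, ZMod.cast_id', id_eq]
    have e : ((c : ZMod q) + w * (MM A Y : ZMod q)) * n = r := by
      rw [hw]
      field_simp
      ring
    rw [e]
    have h1 := Polynomial.eval_intCast_map (Int.castRingHom (ZMod q)) g r
    rw [h1, eq_intCast, Int.cast_id, ZMod.intCast_zmod_eq_zero_iff_dvd]
    exact hr
  · intro S hS
    classical
    have hg0 : g.map (Int.castRingHom (ZMod q)) ≠ 0 := by
      intro h0
      have h1 := Polynomial.eval_intCast_map (Int.castRingHom (ZMod q)) g 0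
      rw [h0] at h1
      simp only [eval_zero, eq_intCast] at h1
      exact h.ndvd q hq ((ZMod.intCast_zmod_eq_zero_iff_dvd _ _).mp h1.symm)
    have h1 : (S.image fun j : ℕ => ((c : ZMod q) + j * (MM A Y : ZMod q)) * n) ⊆
        (g.map (Int.castRingHom (ZMod q))).roots.toFinset := by
      intro x hx
      rw [Finset.mem_image] at hx
      obtain ⟨j, hj, rfl⟩ := hx
      rw [Multiset.mem_toFinset, Polynomial.mem_roots hg0, Polynomial.IsRoot.def]
      exact (hhit j).mp (hS j hj).2
    have h2 : (S.image fun j : ℕ => ((c : ZMod q) + j * (MM A Y : ZMod q)) * n).card = S.card := by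
      refine Finset.card_image_of_injOn ?_
      intro j hj j' hj' he
      have h3 : (j : ZMod q) = j' := by
        have h4 := mul_right_cancel₀ hn' he
        have h5 := add_left_cancel h4
        exact mul_right_cancel₀ hM h5
      rw [ZMod.natCast_eq_natCast_iff'] at h3
      rw [Nat.mod_eq_of_lt (hS j hj).1, Nat.mod_eq_of_lt (hS j' hj').1] at h3
      exact h3
    calc S.card = _ := h2.symm
      _ ≤ (g.map (Int.castRingHom (ZMod q))).roots.toFinset.card := Finset.card_le_card h1
      _ ≤ Multiset.card (g.map (Int.castRingHom (ZMod q))).roots := Multiset.toFinset_card_le _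
      _ ≤ (g.map (Int.castRingHom (ZMod q))).natDegree := Polynomial.card_roots' _
      _ ≤ g.natDegree := Polynomial.natDegree_map_le

end hits

section potential

variable (A : ℕ → Prop) (g : ℤ[X])

/-- the number of primes smaller than `p` which divide `n` -/
noncomputable def Wn (p n : ℕ) : ℕ := by
  classical
  exact ((range p).filter fun s => s.Prime ∧ s ∣ n).card

/-- the potential -/
noncomputable def FF (p Y c : ℕ) : ℝ := by
  classical
  exact if p ∣ c ∨ p ∣ NY A g Y c then 0 else (1 / 2 : ℝ) ^ Wn p (NY A g Y c)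

variable {A g}

theorem Wn_mono {p n n' : ℕ} (h : n ∣ n') : Wn p n ≤ Wn p n' := by
  classical
  unfold Wn
  refine Finset.card_le_card ?_
  intro s hs
  rw [Finset.mem_filter] at hs ⊢
  exact ⟨hs.1, hs.2.1, hs.2.2.trans h⟩

theorem Wn_lt {p n n' s : ℕ} (h : n ∣ n') (hs : s.Prime) (hp : s < p) (h1 : ¬ s ∣ n) (h2 : s ∣ n') :
    Wn p n + 1 ≤ Wn p n' := by
  classical
  unfold Wn
  refine Finset.card_lt_card ?_
  rw [Finset.ssubset_iff_of_subset]
  · refine ⟨s, ?_, ?_⟩
    · rw [Finset.mem_filter, Finset.mem_range]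
      exact ⟨hp, hs, h2⟩
    · rw [Finset.mem_filter]
      rintro ⟨_, _, h3⟩
      exact h1 h3
  · intro s hs
    rw [Finset.mem_filter] at hs ⊢
    exact ⟨hs.1, hs.2.1, hs.2.2.trans h⟩

theorem Wn_le (p n : ℕ) : Wn p n ≤ p := by
  classical
  unfold Wn
  refine (Finset.card_filter_le _ _).trans ?_
  rw [Finset.card_range]

theorem FF_nonneg (p Y c : ℕ) : 0 ≤ FF A g p Y c := by
  unfold FF
  split_ifs
  · exact le_rfl
  · positivity

theorem FF_le_one (p Y c : ℕ) : FF A g p Y c ≤ 1 := by
  unfold FF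
  split_ifs
  · exact zero_le_one
  · exact pow_le_one₀ (by norm_num) (by norm_num)

theorem FF_lower {p Y c : ℕ} (h1 : ¬ p ∣ c) (h2 : ¬ p ∣ NY A g Y c) :
    (1 / 2 : ℝ) ^ p ≤ FF A g p Y c := by
  unfold FF
  rw [if_neg (not_or.mpr ⟨h1, h2⟩)]
  exact pow_le_pow_of_le_one (by norm_num) (by norm_num) (Wn_le _ _)

theorem FF_zero {p Y c : ℕ} (h : p ∣ c ∨ p ∣ NY A g Y c) : FF A g p Y c = 0 := by
  unfold FF
  rw [if_pos h]

theorem FF_mono (h : Good A g) (p c : ℕ) {Y Y' : ℕ} (hY : Y ≤ Y') :
    FF A g p Y' c ≤ FF A g p Y c := by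
  by_cases h1 : p ∣ c ∨ p ∣ NY A g Y c
  · have h2 : p ∣ c ∨ p ∣ NY A g Y' c := h1.imp_right fun h3 => h3.trans (NY_dvd h c hY)
    rw [FF_zero h1, FF_zero h2]
  · by_cases h2 : p ∣ c ∨ p ∣ NY A g Y' c
    · rw [FF_zero h2]
      exact FF_nonneg _ _ _
    · unfold FF
      rw [if_neg h1, if_neg h2]
      exact pow_le_pow_of_le_one (by norm_num) (by norm_num) (Wn_mono (NY_dvd h c hY))

theorem FF_half (h : Good A g) {Y c p : ℕ} (hA : A p) (hp : p ≤ Y)
    (hq : Hit A g c (NY A g Y c) (Y + 1))
    (ht : (p : ℤ) ∣ g.eval ((c : ℤ) * (NY A g Y c * (Y + 1) : ℕ))) :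
    FF A g p (Y + 1) c ≤ FF A g p Y c / 2 := by
  by_cases h1 : p ∣ c ∨ p ∣ NY A g (Y + 1) c
  · rw [FF_zero h1]
    have := FF_nonneg (A := A) (g := g) p Y c
    linarith
  · have h2 : ¬ (p ∣ c ∨ p ∣ NY A g Y c) := fun h3 =>
      h1 (h3.imp_right fun h4 => h4.trans (NY_dvd h c (Nat.le_succ Y)))
    rcases NY_succ_of_target h hA hp hq ht with h3 | ⟨s, hs, hsp, h3, h4⟩
    · exact absurd (Or.inr h3) h1
    · have h5 := Wn_lt (NY_dvd h c (Nat.le_succ Y)) hs hsp h3 h4
      unfold FF
      rw [if_neg h1, if_neg h2]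
      calc (1 / 2 : ℝ) ^ Wn p (NY A g (Y + 1) c) ≤ (1 / 2 : ℝ) ^ (Wn p (NY A g Y c) + 1) :=
            pow_le_pow_of_le_one (by norm_num) (by norm_num) h5
        _ = _ := by rw [pow_succ]; ring

theorem FF_congr (h : Good A g) {Y c c' p : ℕ} (hA : A p) (hp : p ≤ Y) (hc : Cg A Y c c') :
    FF A g p Y c = FF A g p Y c' := by
  have h1 := NY_eq h hc
  have h2 : p ∣ c ↔ p ∣ c' := by
    have h3 := hc p hA hp
    rw [← Int.natCast_dvd_natCast, ← Int.natCast_dvd_natCast, Int.dvd_iff_emod_eq_zero,
      Int.dvd_iff_emod_eq_zero, h3]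
  unfold FF
  rw [h1]
  simp only [h2]

end potential

section averages

variable (A : ℕ → Prop) (g : ℤ[X])

/-- the conditional average of `FF p (Y + n)` over the lifts of `c` -/
noncomputable def VV (p : ℕ) : ℕ → ℕ → ℕ → ℝ
  | 0, Y, c => FF A g p Y c
  | n + 1, Y, c => by
    classical
    exact if A (Y + 1) then (∑ j ∈ range (Y + 1), VV p n (Y + 1) (c + j * MM A Y)) / ((Y : ℝ) + 1)
      else VV p n (Y + 1) c

/-- the average over all the seeds modulo `MM A Y` -/
noncomputable def mu (Y : ℕ) (G : ℕ → ℝ) : ℝ := (∑ c ∈ range (MM A Y), G c) / MM A Y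

variable {A g}

theorem VV_succ_of (p n Y c : ℕ) (h : A (Y + 1)) : VV A g p (n + 1) Y c =
    (∑ j ∈ range (Y + 1), VV A g p n (Y + 1) (c + j * MM A Y)) / ((Y : ℝ) + 1) := by
  rw [VV, if_pos h]

theorem VV_succ_of_not (p n Y c : ℕ) (h : ¬ A (Y + 1)) :
    VV A g p (n + 1) Y c = VV A g p n (Y + 1) c := by
  rw [VV, if_neg h]

theorem sum_range_mul (M q : ℕ) (G : ℕ → ℝ) :
    ∑ c ∈ range (M * q), G c = ∑ c ∈ range M, ∑ j ∈ range q, G (c + j * M) := by
  rw [Finset.sum_comm]
  induction q with
  | zero => simp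
  | succ q ih =>
    rw [Nat.mul_succ, Finset.sum_range_add, ih, Finset.sum_range_succ]
    congr 1
    refine Finset.sum_congr rfl fun c _ => ?_
    congr 1
    ring

theorem mu_VV (p : ℕ) : ∀ n Y : ℕ,
    mu A Y (VV A g p n Y) = mu A (Y + n) (FF A g p (Y + n)) := by
  intro n
  induction n with
  | zero => intro Y; rfl
  | succ n ih =>
    intro Y
    have h1 := ih (Y + 1)
    rw [show Y + (n + 1) = Y + 1 + n by ring, ← h1]
    by_cases hA : A (Y + 1)
    · unfold mu
      rw [MM_succ_of Y hA, sum_range_mul]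
      have h2 : ∀ c, VV A g p (n + 1) Y c = _ := fun c => VV_succ_of p n Y c hA
      simp only [h2]
      rw [← Finset.sum_div, div_div]
      push_cast
      congr 1
      ring
    · unfold mu
      rw [MM_succ_of_not Y hA]
      congr 1
      exact Finset.sum_congr rfl fun c _ => VV_succ_of_not p n Y c hA

theorem VV_le (h : Good A g) {p : ℕ} (hA : A p) : ∀ n Y c : ℕ, p ≤ Y →
    VV A g p n Y c ≤ FF A g p Y c := by
  intro n
  induction n with
  | zero => intro Y c _; exact le_rfl
  | succ n ih =>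
    intro Y c hp
    by_cases hq : A (Y + 1)
    · rw [VV_succ_of p n Y c hq, div_le_iff₀ (by positivity)]
      calc ∑ j ∈ range (Y + 1), VV A g p n (Y + 1) (c + j * MM A Y) ≤
          ∑ j ∈ range (Y + 1), FF A g p Y c := by
            refine Finset.sum_le_sum fun j _ => ?_
            refine (ih (Y + 1) _ (by omega)).trans ((FF_mono h p _ (Nat.le_succ Y)).trans ?_)
            exact (FF_congr h hA hp (Cg_add Y c j)).le
        _ = _ := by
            rw [Finset.sum_const, Finset.card_range, nsmul_eq_mul]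
            push_cast
            ring
    · rw [VV_succ_of_not p n Y c hq]
      exact (ih (Y + 1) c (by omega)).trans (FF_mono h p _ (Nat.le_succ Y))

/-- the sum of the reciprocals of the admissible primes in `(Y, Y + n]` in the class of `t` -/
noncomputable def SS (A : ℕ → Prop) (p t : ℕ) (n Y : ℕ) : ℝ := by
  classical
  exact ∑ i ∈ range n, if A (Y + 1 + i) ∧ Y + 1 + i ≡ t [MOD p] then 1 / ((Y : ℝ) + 1 + i) else 0

theorem SS_nonneg (p t n Y : ℕ) : 0 ≤ SS A p t n Y := by
  unfold SS
  refine Finset.sum_nonneg fun i _ => ?_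
  split_ifs
  · positivity
  · exact le_rfl

theorem SS_succ_of (p t n Y : ℕ) (h : A (Y + 1)) (ht : Y + 1 ≡ t [MOD p]) :
    SS A p t (n + 1) Y = SS A p t n (Y + 1) + 1 / ((Y : ℝ) + 1) := by
  classical
  unfold SS
  rw [Finset.sum_range_succ']
  congr 1
  · refine Finset.sum_congr rfl fun i _ => ?_
    rw [show Y + 1 + (i + 1) = Y + 1 + 1 + i by ring]
    push_cast
    rw [show (Y : ℝ) + 1 + (i + 1) = Y + 1 + 1 + i by ring]
  · rw [add_zero, if_pos ⟨h, ht⟩]
    simp

theorem SS_succ_of_not (p t n Y : ℕ) (h : ¬ (A (Y + 1) ∧ Y + 1 ≡ t [MOD p])) :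
    SS A p t (n + 1) Y = SS A p t n (Y + 1) := by
  classical
  unfold SS
  rw [Finset.sum_range_succ', add_zero, if_neg h, add_zero]
  refine Finset.sum_congr rfl fun i _ => ?_
  rw [show Y + 1 + (i + 1) = Y + 1 + 1 + i by ring]
  push_cast
  rw [show (Y : ℝ) + 1 + (i + 1) = Y + 1 + 1 + i by ring]

/-- **the main estimate**: the potential decreases in a block -/
theorem VV_block (h : Good A g) {p Y₀ : ℕ} (hA : A p) (hp : p ≤ Y₀)
    (hroot : ∀ q, A q → Y₀ < q → ∃ r : ℤ, (q : ℤ) ∣ g.eval r) {θ : ℝ} (hθ0 : 0 ≤ θ)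
    (hθ1 : θ ≤ 1) (hθ : (g.natDegree : ℝ) ≤ (1 - θ) * Y₀) :
    ∀ n Y c t : ℕ, Y₀ ≤ Y → (p : ℤ) ∣ g.eval ((c : ℤ) * (NY A g Y c * t : ℕ)) →
      VV A g p n Y c ≤ FF A g p Y c * (1 - 1 / 2 * (θ ^ n * SS A p t n Y)) := by
  classical
  intro n
  induction n with
  | zero =>
    intro Y c t _ _
    have : SS A p t 0 Y = 0 := by
      unfold SS
      simp
    rw [this, VV]
    simp
  | succ n ih =>
    intro Y c t hY ht
    have hF := FF_nonneg (A := A) (g := g) p Y c
    set F := FF A g p Y c with hFdef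
    by_cases hq : A (Y + 1)
    · set q := Y + 1 with hqdef
      have hqp := h.prime q hq
      set n₀ := NY A g Y c with hn0
      have hqn : ¬ q ∣ n₀ := fun hd => by
        have := (prime_dvd_NY h hqp hd).2.1
        omega
      have hcg : ∀ j, Cg A Y (c + j * MM A Y) c := fun j => Cg_add Y c j
      have hNc : ∀ j, NY A g Y (c + j * MM A Y) = n₀ := fun j => NY_eq h (hcg j)
      have hFc : ∀ j, FF A g p Y (c + j * MM A Y) = F := fun j => FF_congr h hA (by omega) (hcg j)
      have htc : ∀ j u : ℕ, u ≡ t [MOD p] →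
          (p : ℤ) ∣ g.eval (((c + j * MM A Y : ℕ) : ℤ) * (n₀ * u : ℕ)) := by
        intro j u hu
        have h1 : (((c + j * MM A Y : ℕ) : ℤ) * (n₀ * u : ℕ)) ≡ ((c : ℤ) * (n₀ * t : ℕ))
            [ZMOD p] := by
          refine Int.ModEq.mul (hcg j p hA (by omega)) ?_
          push_cast
          exact (((Int.natCast_modEq_iff).mpr hu).mul_left _)
        have h2 := eval_modEq (g := g) h1
        rw [Int.dvd_iff_emod_eq_zero] at ht ⊢
        rw [h2]
        exact ht
      set u : ℝ := θ ^ n * SS A p t n q with hu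
      have hu0 : 0 ≤ u := mul_nonneg (pow_nonneg hθ0 _) (SS_nonneg _ _ _ _)
      -- bounds for one lift
      have hmiss : ∀ j, ¬ Hit A g (c + j * MM A Y) n₀ q →
          VV A g p n q (c + j * MM A Y) ≤ F * (1 - 1 / 2 * u) := by
        intro j hj
        have h1 : NY A g q (c + j * MM A Y) = n₀ := by
          rw [← hNc j] at hj ⊢
          exact NY_succ_of_not_hit h hj
        have h2 := ih q (c + j * MM A Y) t (by omega) (by
          rw [h1]
          exact htc j t rfl)
        refine h2.trans ?_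
        have h3 : FF A g p q (c + j * MM A Y) = F := by
          rw [← hFc j]
          unfold FF
          rw [h1, hNc j]
        rw [h3]
      have hhit : ∀ j, VV A g p n q (c + j * MM A Y) ≤ F := by
        intro j
        refine (VV_le h hA n q _ (by omega)).trans ?_
        rw [← hFc j]
        exact FF_mono h p _ (Nat.le_succ Y)
      have hhit2 : q ≡ t [MOD p] → ∀ j, Hit A g (c + j * MM A Y) n₀ q →
          VV A g p n q (c + j * MM A Y) ≤ F / 2 := by
        intro hqt j hj
        refine (VV_le h hA n q _ (by omega)).trans ?_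
        rw [← hFc j]
        refine FF_half h hA (by omega) ?_ ?_
        · rw [hNc j]
          exact hj
        · rw [hNc j]
          exact htc j q hqt
      -- the number of hits
      obtain ⟨⟨j₀, hj0, hj0h⟩, hcard⟩ := card_hits (c := c) h hq (Nat.lt_succ_self Y) hqn
        (hroot q hq (by omega))
      set H := (range q).filter fun j => Hit A g (c + j * MM A Y) n₀ q with hH
      set H' := (range q).filter fun j => ¬ Hit A g (c + j * MM A Y) n₀ q with hH'
      have hB1 : (1 : ℝ) ≤ H.card := by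
        have : 0 < H.card := Finset.card_pos.mpr ⟨j₀, Finset.mem_filter.mpr
          ⟨Finset.mem_range.mpr hj0, hj0h⟩⟩
        exact_mod_cast this
      have hBd : (H.card : ℝ) ≤ (1 - θ) * q := by
        have h1 : H.card ≤ g.natDegree := by
          refine hcard H fun j hj => ?_
          rw [hH, Finset.mem_filter, Finset.mem_range] at hj
          exact hj
        have h2 : (H.card : ℝ) ≤ g.natDegree := by exact_mod_cast h1
        have h3 : (Y₀ : ℝ) ≤ q := by exact_mod_cast (by omega : Y₀ ≤ q)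
        have h4 : (1 - θ) * Y₀ ≤ (1 - θ) * q := mul_le_mul_of_nonneg_left h3 (by linarith)
        linarith
      have hsumcard : (H.card : ℝ) + H'.card = q := by
        have h1 := Finset.card_filter_add_card_filter_not (s := range q)
          (fun j => Hit A g (c + j * MM A Y) n₀ q)
        rw [Finset.card_range] at h1
        exact_mod_cast h1
      have hqpos : (0 : ℝ) < q := by exact_mod_cast hqp.pos
      have hqr : ((Y : ℝ) + 1) = q := by
        rw [hqdef]
        push_cast
        rfl
      have hsplit : ∑ j ∈ range q, VV A g p n q (c + j * MM A Y) =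
          ∑ j ∈ H, VV A g p n q (c + j * MM A Y) + ∑ j ∈ H', VV A g p n q (c + j * MM A Y) :=
        (Finset.sum_filter_add_sum_filter_not _ _ _).symm
      have hmiss' : ∑ j ∈ H', VV A g p n q (c + j * MM A Y) ≤ H'.card * (F * (1 - 1 / 2 * u)) := by
        rw [← nsmul_eq_mul]
        refine Finset.sum_le_card_nsmul _ _ _ fun j hj => ?_
        rw [hH', Finset.mem_filter] at hj
        exact hmiss j hj.2
      have hmu : θ * u ≤ (1 - H.card / q) * u := by
        refine mul_le_mul_of_nonneg_right ?_ hu0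
        have : (H.card : ℝ) / q ≤ 1 - θ := by
          rw [div_le_iff₀ hqpos]
          exact hBd
        linarith
      rw [VV_succ_of p n Y c hq, hqr, div_le_iff₀ hqpos]
      by_cases hqt : q ≡ t [MOD p]
      · have hH2 : ∑ j ∈ H, VV A g p n q (c + j * MM A Y) ≤ H.card * (F / 2) := by
          rw [← nsmul_eq_mul]
          refine Finset.sum_le_card_nsmul _ _ _ fun j hj => ?_
          rw [hH, Finset.mem_filter] at hj
          exact hhit2 hqt j hj.2
        rw [SS_succ_of p t n Y hq hqt, hqr]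
        have h1 : θ ^ (n + 1) * (SS A p t n (Y + 1) + 1 / (q : ℝ)) ≤ θ * u + 1 / q := by
          have h2 : θ ^ (n + 1) * (SS A p t n (Y + 1) + 1 / (q : ℝ)) = θ * u + θ ^ (n + 1) / q := by
            rw [hu]
            ring
          rw [h2]
          have h3 : θ ^ (n + 1) ≤ 1 := pow_le_one₀ hθ0 hθ1
          have h4 : θ ^ (n + 1) / (q : ℝ) ≤ 1 / q := div_le_div_of_nonneg_right h3 hqpos.le
          linarith
        have h2 : (1 : ℝ) / q ≤ H.card / q := div_le_div_of_nonneg_right hB1 hqpos.le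
        have h3 : θ ^ (n + 1) * (SS A p t n (Y + 1) + 1 / (q : ℝ)) ≤
            H.card / q + (1 - H.card / q) * u := by linarith
        have h4 : ∑ j ∈ range q, VV A g p n q (c + j * MM A Y) ≤
            F * (1 - 1 / 2 * (H.card / q + (1 - H.card / q) * u)) * q := by
          rw [hsplit]
          have h5 : (H'.card : ℝ) = q - H.card := by linarith
          rw [h5] at hmiss'
          have h6 : F * (1 - 1 / 2 * ((H.card : ℝ) / q + (1 - H.card / q) * u)) * q =
              H.card * (F / 2) + (q - H.card) * (F * (1 - 1 / 2 * u)) := by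
            field_simp
            ring
          rw [h6]
          linarith
        refine h4.trans ?_
        refine mul_le_mul_of_nonneg_right (mul_le_mul_of_nonneg_left ?_ hF) hqpos.le
        linarith
      · have hH2 : ∑ j ∈ H, VV A g p n q (c + j * MM A Y) ≤ H.card * F := by
          rw [← nsmul_eq_mul]
          exact Finset.sum_le_card_nsmul _ _ _ fun j _ => hhit j
        rw [SS_succ_of_not p t n Y (fun h1 => hqt h1.2)]
        have h1 : θ ^ (n + 1) * SS A p t n (Y + 1) = θ * u := by
          rw [hu]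
          ring
        rw [h1]
        have h4 : ∑ j ∈ range q, VV A g p n q (c + j * MM A Y) ≤
            F * (1 - 1 / 2 * ((1 - H.card / q) * u)) * q := by
          rw [hsplit]
          have h5 : (H'.card : ℝ) = q - H.card := by linarith
          rw [h5] at hmiss'
          have h6 : F * (1 - 1 / 2 * ((1 - (H.card : ℝ) / q) * u)) * q =
              H.card * F + (q - H.card) * (F * (1 - 1 / 2 * u)) := by
            field_simp
            ring
          rw [h6]
          linarith
        refine h4.trans ?_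
        refine mul_le_mul_of_nonneg_right (mul_le_mul_of_nonneg_left ?_ hF) hqpos.le
        linarith
    · rw [VV_succ_of_not p n Y c hq, SS_succ_of_not p t n Y (fun h1 => hq h1.1)]
      have hnh : ¬ Hit A g c (NY A g Y c) (Y + 1) := fun h1 => hq h1.1
      have h1 := NY_succ_of_not_hit h hnh
      have h2 := ih (Y + 1) c t (by omega) (by rw [h1]; exact ht)
      have h3 : FF A g p (Y + 1) c = F := by
        rw [hFdef]
        unfold FF
        rw [h1]
      rw [h3] at h2
      refine h2.trans ?_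
      refine mul_le_mul_of_nonneg_left ?_ hF
      have h4 : θ ^ (n + 1) * SS A p t n (Y + 1) ≤ θ ^ n * SS A p t n (Y + 1) := by
        refine mul_le_mul_of_nonneg_right ?_ (SS_nonneg _ _ _ _)
        exact pow_le_pow_of_le_one hθ0 hθ1 (Nat.le_succ n)
      linarith

end averages

end Pool.Agent.Work.MP_75c89d_seeds
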