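import Mathlib

/-!
# Euclid-Mullin processes with a seed: the truncated process

`A` is the set of the admissible primes, `g` a polynomial, `c` the seed.
-/

set_option autoImplicit false

namespace Pool.Agent.Work.MP_75c89d_seeds

open Finset Polynomial

variable (A : ℕ → Prop) (g : ℤ[X])

/-- `q` is an admissible prime divisor of `g(c n)` -/
def Hit (c n q : ℕ) : Prop := A q ∧ (q : ℤ) ∣ g.eval ((c : ℤ) * n)

/-- the next prime (`0` if there is none) -/
noncomputable def nx (c n : ℕ) : ℕ := sInf {q | Hit A g c n q}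

/-- the process -/
noncomputable def NN (c : ℕ) : ℕ → ℕ
  | 0 => 1
  | k + 1 => NN c k * max 1 (nx A g c (NN c k))

/-- no admissible prime `≤ Y` divides `g(c n)` -/
def Stk (Y c n : ℕ) : Prop := ∀ q, q ≤ Y → ¬ Hit A g c n q

/-- the standing hypotheses on the set of admissible primes -/
structure Good : Prop where
  prime : ∀ q, A q → q.Prime
  ndvd : ∀ q, A q → ¬ (q : ℤ) ∣ g.eval 0

variable {A g}

theorem hit_ndvd (h : Good A g) {c n q : ℕ} (hq : Hit A g c n q) : ¬ q ∣ c * n := by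
  intro hd
  have h1 : ((c : ℤ) * n - 0) ∣ g.eval ((c : ℤ) * n) - g.eval 0 := sub_dvd_eval_sub _ _ _
  rw [sub_zero] at h1
  have h2 : (q : ℤ) ∣ (c : ℤ) * n := by exact_mod_cast hd
  have h3 := h2.trans h1
  exact h.ndvd q hq.1 ((dvd_sub_right hq.2).mp h3)

theorem nx_spec {c n q : ℕ} (hq : Hit A g c n q) : Hit A g c n (nx A g c n) ∧ nx A g c n ≤ q :=
  ⟨Nat.sInf_mem (s := {q | Hit A g c n q}) ⟨q, hq⟩, Nat.sInf_le hq⟩

theorem nx_zero_or (c n : ℕ) : nx A g c n = 0 ∨ Hit A g c n (nx A g c n) := by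
  by_cases hne : {q | Hit A g c n q}.Nonempty
  · exact Or.inr (Nat.sInf_mem hne)
  · left
    rw [Set.not_nonempty_iff_eq_empty] at hne
    unfold nx
    rw [hne, Nat.sInf_empty]

theorem NN_pos (c k : ℕ) : 0 < NN A g c k := by
  induction k with
  | zero => exact Nat.one_pos
  | succ k ih => exact Nat.mul_pos ih (lt_of_lt_of_le Nat.one_pos (le_max_left _ _))

theorem NN_succ_of_hit (h : Good A g) {c k q : ℕ} (hq : Hit A g c (NN A g c k) q) :
    NN A g c (k + 1) = NN A g c k * nx A g c (NN A g c k) := by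
  have h1 := (nx_spec hq).1
  have h2 := (h.prime _ h1.1).one_lt.le
  change NN A g c k * max 1 (nx A g c (NN A g c k)) = _
  rw [max_eq_right h2]

theorem NN_dvd (c : ℕ) {k k' : ℕ} (hk : k ≤ k') : NN A g c k ∣ NN A g c k' := by
  induction hk with
  | refl => exact dvd_rfl
  | step _ ih => exact ih.trans (Dvd.intro _ rfl)

/-- among the first steps one is stuck at the level `Y` -/
theorem exists_stk_le (h : Good A g) (Y c : ℕ) : ∃ k, k ≤ Y + 2 ∧ Stk A g Y c (NN A g c k) := by
  classical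
  by_contra hcon
  push Not at hcon
  have hw : ∀ k, k ≤ Y + 2 → k ≤ ((range (Y + 1)).filter fun s => s.Prime ∧ s ∣ NN A g c k).card := by
    intro k
    induction k with
    | zero => intro _; exact Nat.zero_le _
    | succ k ih =>
      intro hk
      have h1 := hcon k (by omega)
      unfold Stk at h1
      push Not at h1
      obtain ⟨q, hqY, hq⟩ := h1
      obtain ⟨h2, h3⟩ := nx_spec hq
      have h4 := NN_succ_of_hit h hq
      have h5 := hit_ndvd h h2
      refine lt_of_le_of_lt (ih (by omega)) (Finset.card_lt_card ?_)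
      rw [Finset.ssubset_iff_of_subset]
      · refine ⟨nx A g c (NN A g c k), ?_, ?_⟩
        · rw [Finset.mem_filter, Finset.mem_range]
          exact ⟨by omega, h.prime _ h2.1, h4 ▸ Dvd.intro_left _ rfl⟩
        · rw [Finset.mem_filter]
          rintro ⟨_, _, h6⟩
          exact h5 (h6.trans (Dvd.intro_left _ rfl))
      · intro s hs
        rw [Finset.mem_filter] at hs ⊢
        exact ⟨hs.1, hs.2.1, hs.2.2.trans (NN_dvd c (Nat.le_succ k))⟩
  have h1 := hw (Y + 2) le_rfl
  have h2 := Finset.card_filter_le (range (Y + 1)) fun s => s.Prime ∧ s ∣ NN A g c (Y + 2)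
  rw [Finset.card_range] at h2
  omega

theorem exists_stk (h : Good A g) (Y c : ℕ) : ∃ k, Stk A g Y c (NN A g c k) := by
  obtain ⟨k, -, hk⟩ := exists_stk_le h Y c
  exact ⟨k, hk⟩

variable (A g)

/-- the first step which is stuck at the level `Y` -/
noncomputable def kap (Y c : ℕ) : ℕ := sInf {k | Stk A g Y c (NN A g c k)}

/-- the state at the level `Y` -/
noncomputable def NY (Y c : ℕ) : ℕ := NN A g c (kap A g Y c)

variable {A g}

theorem kap_spec (h : Good A g) (Y c : ℕ) : Stk A g Y c (NY A g Y c) :=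
  Nat.sInf_mem (s := {k | Stk A g Y c (NN A g c k)}) (exists_stk h Y c)

theorem kap_le {Y c k : ℕ} (hk : Stk A g Y c (NN A g c k)) : kap A g Y c ≤ k := Nat.sInf_le hk

/-- the state at the level `Y` is reached after at most `Y + 2` steps -/
theorem NY_dvd_NN (h : Good A g) (Y c : ℕ) : NY A g Y c ∣ NN A g c (Y + 2) := by
  obtain ⟨k, hk, h1⟩ := exists_stk_le h Y c
  exact NN_dvd c ((kap_le h1).trans hk)

theorem not_stk_of_lt {Y c k : ℕ} (hk : k < kap A g Y c) : ¬ Stk A g Y c (NN A g c k) :=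
  fun h => absurd (kap_le h) (not_le.mpr hk)

theorem Stk.mono {Y Y' c n : ℕ} (h : Stk A g Y' c n) (hY : Y ≤ Y') : Stk A g Y c n :=
  fun q hq => h q (hq.trans hY)

theorem kap_mono (h : Good A g) (c : ℕ) {Y Y' : ℕ} (hY : Y ≤ Y') : kap A g Y c ≤ kap A g Y' c :=
  kap_le ((kap_spec h Y' c).mono hY)

theorem NY_dvd (h : Good A g) (c : ℕ) {Y Y' : ℕ} (hY : Y ≤ Y') : NY A g Y c ∣ NY A g Y' c :=
  NN_dvd c (kap_mono h c hY)

theorem NY_pos (Y c : ℕ) : 0 < NY A g Y c := NN_pos _ _

/-- the primes which divide the state at the level `Y` are admissible and `≤ Y` -/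
theorem prime_dvd_NY (h : Good A g) {Y c s : ℕ} (hs : s.Prime) (hd : s ∣ NY A g Y c) :
    A s ∧ s ≤ Y ∧ ¬ s ∣ c := by
  have key : ∀ k, k ≤ kap A g Y c → s ∣ NN A g c k → A s ∧ s ≤ Y ∧ ¬ s ∣ c := by
    intro k
    induction k with
    | zero =>
      intro _ hd
      exact absurd (Nat.dvd_one.mp hd) hs.one_lt.ne'
    | succ k ih =>
      intro hk hd
      have h1 := not_stk_of_lt (lt_of_lt_of_le (Nat.lt_succ_self k) hk)
      unfold Stk at h1
      push Not at h1
      obtain ⟨q, hqY, hq⟩ := h1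
      obtain ⟨h2, h3⟩ := nx_spec hq
      rw [NN_succ_of_hit h hq] at hd
      rcases (Nat.Prime.dvd_mul hs).mp hd with h4 | h4
      · exact ih (by omega) h4
      · have h5 : s = nx A g c (NN A g c k) := (Nat.prime_dvd_prime_iff_eq hs (h.prime _ h2.1)).mp h4
        rw [h5]
        exact ⟨h2.1, h3.trans hqY, fun h6 => hit_ndvd h h2 (h6.trans (Dvd.intro _ rfl))⟩
  exact key _ le_rfl hd

/-- the congruence `c ≡ c'` modulo all admissible primes up to `Y` -/
def Cg (A : ℕ → Prop) (Y c c' : ℕ) : Prop := ∀ q, A q → q ≤ Y → (c : ℤ) ≡ c' [ZMOD q]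

theorem Cg.symm {Y c c' : ℕ} (h : Cg A Y c c') : Cg A Y c' c := fun q hq hY => (h q hq hY).symm

theorem eval_modEq {a b : ℤ} {q : ℤ} (hab : a ≡ b [ZMOD q]) : g.eval a ≡ g.eval b [ZMOD q] := by
  have h1 : (a - b) ∣ g.eval a - g.eval b := sub_dvd_eval_sub _ _ _
  exact (Int.modEq_iff_dvd.mpr ((dvd_sub_comm.mp hab.dvd |>.trans h1))).symm

theorem hit_iff {Y c c' : ℕ} (hc : Cg A Y c c') {q : ℕ} (hq : q ≤ Y) (n : ℕ) :
    Hit A g c n q ↔ Hit A g c' n q := by
  unfold Hit
  refine and_congr_right fun hA => ?_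
  have h1 : (c : ℤ) * n ≡ (c' : ℤ) * n [ZMOD q] := (hc q hA hq).mul_right _
  have h2 := eval_modEq (g := g) h1
  rw [Int.dvd_iff_emod_eq_zero, Int.dvd_iff_emod_eq_zero, h2]

theorem stk_iff {Y c c' : ℕ} (hc : Cg A Y c c') (n : ℕ) : Stk A g Y c n ↔ Stk A g Y c' n := by
  unfold Stk
  exact forall_congr' fun q => forall_congr' fun hq => not_congr (hit_iff hc hq n)

theorem nx_eq {Y c c' n : ℕ} (hc : Cg A Y c c') (hn : ¬ Stk A g Y c n) :
    nx A g c n = nx A g c' n := by
  unfold Stk at hn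
  push Not at hn
  obtain ⟨q, hqY, hq⟩ := hn
  have hq' := (hit_iff hc hqY n).mp hq
  obtain ⟨h1, h2⟩ := nx_spec hq
  obtain ⟨h3, h4⟩ := nx_spec hq'
  refine le_antisymm ?_ ?_
  · exact (nx_spec ((hit_iff hc (h4.trans hqY) n).mpr h3)).2
  · exact (nx_spec ((hit_iff hc (h2.trans hqY) n).mp h1)).2

theorem NN_eq {Y c c' : ℕ} (hc : Cg A Y c c') : ∀ k, k ≤ kap A g Y c →
    NN A g c k = NN A g c' k := by
  intro k
  induction k with
  | zero => intro _; rfl
  | succ k ih =>
    intro hk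
    have h1 := ih (by omega)
    have h2 := nx_eq hc (not_stk_of_lt (lt_of_lt_of_le (Nat.lt_succ_self k) hk))
    change NN A g c k * max 1 (nx A g c (NN A g c k)) = NN A g c' k * max 1 (nx A g c' (NN A g c' k))
    rw [h2, h1]

theorem kap_le_of (h : Good A g) {Y c c' : ℕ} (hc : Cg A Y c c') : kap A g Y c' ≤ kap A g Y c := by
  refine kap_le ?_
  rw [← NN_eq hc _ le_rfl, ← stk_iff hc]
  exact kap_spec h Y c

theorem NY_eq (h : Good A g) {Y c c' : ℕ} (hc : Cg A Y c c') : NY A g Y c = NY A g Y c' := by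
  have h1 : kap A g Y c = kap A g Y c' := le_antisymm (kap_le_of h hc.symm) (kap_le_of h hc)
  unfold NY
  rw [NN_eq hc _ le_rfl, h1]

/-- no new prime: the state does not change -/
theorem NY_succ_of_not_hit (h : Good A g) {Y c : ℕ} (hn : ¬ Hit A g c (NY A g Y c) (Y + 1)) :
    NY A g (Y + 1) c = NY A g Y c := by
  have h1 : kap A g (Y + 1) c ≤ kap A g Y c := by
    refine kap_le ?_
    intro q hq
    rcases Nat.lt_or_ge q (Y + 1) with h2 | h2
    · exact kap_spec h Y c q (by omega)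
    · have : q = Y + 1 := le_antisymm hq h2
      rw [this]
      exact hn
  have h2 := le_antisymm h1 (kap_mono h c (Nat.le_succ Y))
  unfold NY
  rw [h2]

/-- the prime `q = Y + 1` hits and has the right class modulo `p`: a new prime `≤ p` divides the
next state -/
theorem NY_succ_of_target (h : Good A g) {Y c p : ℕ} (hA : A p) (hp : p ≤ Y)
    (hq : Hit A g c (NY A g Y c) (Y + 1))
    (ht : (p : ℤ) ∣ g.eval ((c : ℤ) * (NY A g Y c * (Y + 1) : ℕ))) :
    p ∣ NY A g (Y + 1) c ∨ ∃ s, s.Prime ∧ s < p ∧ ¬ s ∣ NY A g Y c ∧ s ∣ NY A g (Y + 1) c := by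
  set k := kap A g Y c with hk
  have hnx : nx A g c (NN A g c k) = Y + 1 := by
    obtain ⟨h1, h2⟩ := nx_spec hq
    refine le_antisymm h2 ?_
    by_contra h3
    have h4 : nx A g c (NN A g c k) ≤ Y := by
      have : nx A g c (NN A g c k) < Y + 1 := not_le.mp h3
      omega
    exact kap_spec h Y c _ h4 h1
  have hk1 : NN A g c (k + 1) = NY A g Y c * (Y + 1) := by
    have h1 := NN_succ_of_hit h hq
    rw [hnx] at h1
    exact h1
  have hlt : k < kap A g (Y + 1) c := by
    refine lt_of_le_of_ne (kap_mono h c (Nat.le_succ Y)) ?_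
    intro h1
    have h2 := kap_spec h (Y + 1) c
    unfold NY at h2
    rw [← h1] at h2
    exact h2 (Y + 1) le_rfl hq
  have hpHit : Hit A g c (NN A g c (k + 1)) p := by
    refine ⟨hA, ?_⟩
    rw [hk1]
    exact ht
  have hlt2 : k + 1 < kap A g (Y + 1) c := by
    refine lt_of_le_of_ne hlt ?_
    intro h1
    have h2 := kap_spec h (Y + 1) c
    unfold NY at h2
    rw [← h1] at h2
    exact h2 p (by omega) hpHit
  obtain ⟨h1, h2⟩ := nx_spec hpHit
  have h3 := NN_succ_of_hit h hpHit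
  have h4 : nx A g c (NN A g c (k + 1)) ∣ NY A g (Y + 1) c := by
    refine dvd_trans ?_ (NN_dvd c (k := k + 2) hlt2)
    rw [show k + 2 = (k + 1) + 1 from rfl, h3]
    exact Dvd.intro_left _ rfl
  rcases Nat.lt_or_ge (nx A g c (NN A g c (k + 1))) p with h5 | h5
  · right
    refine ⟨_, h.prime _ h1.1, h5, ?_, h4⟩
    intro h6
    have h7 : NY A g Y c ∣ NN A g c (k + 1) := NN_dvd c (Nat.le_succ k)
    exact hit_ndvd h h1 ((h6.trans h7).trans (Dvd.intro_left _ rfl))
  · left
    have h6 := le_antisymm h2 h5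
    rwa [h6] at h4

end Pool.Agent.Work.MP_75c89d_seeds
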