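import Pool.Agent.Work.MP_75c89d_seeds.Avg
import Pool.Agent.Work.MP_b29d7f_nt.Primes

/-!
# Euclid-Mullin processes with a seed: the prime number theorem and the density
-/

set_option autoImplicit false

namespace Pool.Agent.Work.MP_75c89d_seeds

open Finset Polynomial Filter Topology
open Pool.Agent.Work.MP_b29d7f_nt (primesIn mem_primesIn theta_class_tendsto)

/-- the admissible primes for `GEM(a, m)` -/
def Adm (a m : ℕ) (g : ℤ[X]) (q : ℕ) : Prop :=
  q.Prime ∧ q ≡ a [MOD m] ∧ ¬ (q : ℤ) ∣ g.eval 0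

theorem good_adm (a m : ℕ) (g : ℤ[X]) : Good (Adm a m g) g := ⟨fun _ h => h.1, fun _ h => h.2.2⟩

theorem adm_coprime {a m : ℕ} {g : ℤ[X]} (ham : a.Coprime m) {p : ℕ} (hp : Adm a m g p) :
    p.Coprime m := by
  rw [hp.1.coprime_iff_not_dvd]
  intro hd
  have h1 : p ∣ a := by
    have h2 : p ≡ a [MOD p] := hp.2.1.of_dvd hd
    exact (h2.dvd_iff dvd_rfl).mp dvd_rfl
  have h3 : p ∣ Nat.gcd a m := Nat.dvd_gcd h1 hd
  rw [ham] at h3
  exact hp.1.one_lt.ne' (Nat.dvd_one.mp h3)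

/-- lower bound for the sum of the reciprocals in dyadic blocks -/
theorem SS_lower {a m : ℕ} {g : ℤ[X]} (hm : 0 < m) (ham : a.Coprime m) (hg0 : g.eval 0 ≠ 0) {p : ℕ}
    (hp : Adm a m g p) {t : ℕ} (ht : t.Coprime p) :
    ∀ᶠ j : ℕ in atTop, (((p * m).totient : ℝ)⁻¹ / 4) / ((j : ℝ) + 1) ≤
      SS (Adm a m g) p t (2 ^ j) (2 ^ j) := by
  classical
  have hco := adm_coprime ham hp
  have : NeZero (p * m) := ⟨(Nat.mul_pos hp.1.pos hm).ne'⟩
  obtain ⟨u, hu1, hu2⟩ := Nat.chineseRemainder hco t a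
  have hucop : u.Coprime (p * m) := by
    refine Nat.Coprime.mul_right ?_ ?_
    · have := hu1.gcd_eq
      rw [Nat.Coprime, this]
      exact ht
    · have := hu2.gcd_eq
      rw [Nat.Coprime, this]
      exact ham
  have hunit : IsUnit (u : ZMod (p * m)) := (ZMod.isUnit_iff_coprime _ _).mpr hucop
  set κ : ℝ := ((p * m).totient : ℝ)⁻¹ with hκ
  have hκpos : 0 < κ := by
    rw [hκ]
    have : 0 < (p * m).totient := Nat.totient_pos.mpr (NeZero.pos _)
    positivity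
  have ht1 := theta_class_tendsto hunit
  have ht2 : Tendsto (fun n : ℕ => (∑ p ∈ primesIn (u : ZMod (p * m)) (2 * n), Real.log p) /
      ((2 * n : ℕ) : ℝ)) atTop (𝓝 κ) := by
    have h : Tendsto (fun n : ℕ => 2 * n) atTop atTop := tendsto_id.const_mul_atTop' (by norm_num)
    exact ht1.comp h
  have hdiff : Tendsto (fun n : ℕ => 2 * ((∑ p ∈ primesIn (u : ZMod (p * m)) (2 * n), Real.log p) /
      ((2 * n : ℕ) : ℝ)) - (∑ p ∈ primesIn (u : ZMod (p * m)) n, Real.log p) / n) atTop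
      (𝓝 (2 * κ - κ)) := (ht2.const_mul 2).sub ht1
  have hev : ∀ᶠ n : ℕ in atTop, κ / 2 < 2 * ((∑ p ∈ primesIn (u : ZMod (p * m)) (2 * n),
      Real.log p) / ((2 * n : ℕ) : ℝ)) - (∑ p ∈ primesIn (u : ZMod (p * m)) n, Real.log p) / n :=
    hdiff.eventually (lt_mem_nhds (by linarith))
  have hpow : Tendsto (fun j : ℕ => 2 ^ j) atTop (atTop : Filter ℕ) :=
    tendsto_pow_atTop_atTop_of_one_lt (by norm_num)
  filter_upwards [hpow.eventually hev, hpow.eventually (eventually_ge_atTop ((g.eval 0).natAbs + 1))]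
    with j h1 h2
  set Y : ℕ := 2 ^ j with hY
  have hYpos : 0 < Y := by positivity
  have hYr : (0 : ℝ) < Y := by exact_mod_cast hYpos
  set D := primesIn (u : ZMod (p * m)) (2 * Y) \ primesIn (u : ZMod (p * m)) Y with hD
  have hsub : primesIn (u : ZMod (p * m)) Y ⊆ primesIn (u : ZMod (p * m)) (2 * Y) := by
    intro q hq
    rw [mem_primesIn] at hq ⊢
    exact ⟨⟨by omega, hq.1.2⟩, hq.2⟩
  have h3 : 2 * ((∑ p ∈ primesIn (u : ZMod (p * m)) (2 * Y), Real.log p) / ((2 * Y : ℕ) : ℝ)) -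
      (∑ p ∈ primesIn (u : ZMod (p * m)) Y, Real.log p) / Y = (∑ q ∈ D, Real.log q) / Y := by
    rw [← Finset.sum_sdiff hsub]
    push_cast
    field_simp
    ring
  rw [h3, lt_div_iff₀ hYr] at h1
  have hDprop : ∀ q ∈ D, Y < q ∧ q ≤ 2 * Y ∧ q.Prime ∧ Adm a m g q ∧ q ≡ t [MOD p] := by
    intro q hq
    rw [hD, Finset.mem_sdiff, mem_primesIn, mem_primesIn] at hq
    obtain ⟨⟨⟨h4, h5⟩, h6⟩, h7⟩ := hq
    have h8 : Y < q := by
      by_contra h9
      exact h7 ⟨⟨not_lt.mp h9, h5⟩, h6⟩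
    rw [ZMod.natCast_eq_natCast_iff] at h6
    have h9 : q ≡ t [MOD p] := (h6.of_dvd (Dvd.intro _ rfl)).trans hu1
    have h10 : q ≡ a [MOD m] := (h6.of_dvd (Dvd.intro_left _ rfl)).trans hu2
    refine ⟨h8, h4, h5, ⟨h5, h10, ?_⟩, h9⟩
    intro h11
    have h12 := Nat.le_of_dvd (Int.natAbs_pos.mpr hg0) (Int.natCast_dvd.mp h11)
    omega
  have hlog2Y : 0 < Real.log (2 * Y) := by
    apply Real.log_pos
    have : (1 : ℝ) ≤ Y := by exact_mod_cast hYpos
    linarith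
  have h4 : (∑ q ∈ D, Real.log q) / (2 * Y * Real.log (2 * Y)) ≤ ∑ q ∈ D, 1 / (q : ℝ) := by
    rw [Finset.sum_div]
    refine Finset.sum_le_sum fun q hq => ?_
    obtain ⟨h5, h6, h7, -, -⟩ := hDprop q hq
    have hqpos : (0 : ℝ) < q := by exact_mod_cast h7.pos
    have h8 : (q : ℝ) ≤ 2 * Y := by exact_mod_cast h6
    have h9 : Real.log q ≤ Real.log (2 * Y) := Real.log_le_log hqpos h8
    have h10 : 0 ≤ Real.log q := Real.log_nonneg (by exact_mod_cast h7.one_lt.le)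
    rw [div_le_div_iff₀ (by positivity) hqpos]
    nlinarith
  have h5 : ∑ q ∈ D, 1 / (q : ℝ) ≤ SS (Adm a m g) p t Y Y := by
    have h6 : SS (Adm a m g) p t Y Y = ∑ q ∈ Ico (Y + 1) (2 * Y + 1),
        if Adm a m g q ∧ q ≡ t [MOD p] then 1 / (q : ℝ) else 0 := by
      unfold SS
      rw [Finset.sum_Ico_eq_sum_range, show 2 * Y + 1 - (Y + 1) = Y by omega]
      refine Finset.sum_congr rfl fun i _ => ?_
      push_cast
      rfl
    rw [h6]
    calc ∑ q ∈ D, 1 / (q : ℝ) = ∑ q ∈ D, if Adm a m g q ∧ q ≡ t [MOD p] then 1 / (q : ℝ) else 0 := by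
          refine Finset.sum_congr rfl fun q hq => ?_
          obtain ⟨-, -, -, h7, h8⟩ := hDprop q hq
          rw [if_pos ⟨h7, h8⟩]
      _ ≤ _ := by
          refine Finset.sum_le_sum_of_subset_of_nonneg ?_ ?_
          · intro q hq
            obtain ⟨h7, h8, -, -, -⟩ := hDprop q hq
            rw [Finset.mem_Ico]
            omega
          · intro q _ _
            split_ifs
            · positivity
            · exact le_rfl
  refine le_trans ?_ (h4.trans h5)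
  have hlog : Real.log (2 * Y) = (j + 1) * Real.log 2 := by
    rw [hY]
    push_cast
    rw [show (2 : ℝ) * 2 ^ j = 2 ^ (j + 1) by ring, Real.log_pow]
    push_cast
    ring
  have hlog2 : 0 < Real.log 2 := Real.log_pos (by norm_num)
  have hlog2' : Real.log 2 ≤ 1 := by
    have := Real.log_le_sub_one_of_pos (show (0 : ℝ) < 2 by norm_num)
    linarith
  rw [div_le_div_iff₀ (by positivity) (by positivity), hlog]
  have hj : (0 : ℝ) < j + 1 := by positivity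
  have e1 : κ / 4 * (2 * Y * ((j + 1) * Real.log 2)) ≤ κ / 2 * Y * (j + 1) := by
    have e2 : κ / 4 * (2 * Y * ((j + 1) * Real.log 2)) = κ / 2 * Y * (j + 1) * Real.log 2 := by ring
    rw [e2]
    have e3 : 0 ≤ κ / 2 * Y * (j + 1) := by positivity
    nlinarith
  have e4 : κ / 2 * Y * (j + 1) ≤ (∑ q ∈ D, Real.log q) * (j + 1) :=
    mul_le_mul_of_nonneg_right h1.le hj.le
  linarith

/-- the class in which the next hit is wanted -/
theorem exists_target {A : ℕ → Prop} {g : ℤ[X]} (h : Good A g) {p : ℕ} (hA : A p) {c n : ℕ}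
    (hc : ¬ p ∣ c) (hn : ¬ p ∣ n) (hr : ∃ r : ℤ, (p : ℤ) ∣ g.eval r) :
    ∃ t : ℕ, t < p ∧ t.Coprime p ∧ (p : ℤ) ∣ g.eval ((c : ℤ) * (n * t : ℕ)) := by
  obtain ⟨r, hr⟩ := hr
  have hp := h.prime p hA
  have : Fact p.Prime := ⟨hp⟩
  have hc' : (c : ZMod p) ≠ 0 := by rwa [Ne, ZMod.natCast_eq_zero_iff]
  have hn' : (n : ZMod p) ≠ 0 := by rwa [Ne, ZMod.natCast_eq_zero_iff]
  set w : ZMod p := (r : ZMod p) * ((c : ZMod p) * n)⁻¹ with hw
  have hev : (p : ℤ) ∣ g.eval ((c : ℤ) * (n * w.val : ℕ)) := by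
    rw [← ZMod.intCast_zmod_eq_zero_iff_dvd]
    have h1 := Polynomial.eval_intCast_map (Int.castRingHom (ZMod p)) g ((c : ℤ) * (n * w.val : ℕ))
    rw [eq_intCast, Int.cast_id] at h1
    rw [← h1]
    have e : (((c : ℤ) * (n * w.val : ℕ) : ℤ) : ZMod p) = (r : ZMod p) := by
      push_cast
      rw [ZMod.natCast_val, ZMod.cast_id', id_eq, hw]
      field_simp
    rw [e]
    have h2 := Polynomial.eval_intCast_map (Int.castRingHom (ZMod p)) g r
    rw [h2, eq_intCast, Int.cast_id, ZMod.intCast_zmod_eq_zero_iff_dvd]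
    exact hr
  refine ⟨w.val, ZMod.val_lt w, ?_, hev⟩
  rw [Nat.coprime_comm, hp.coprime_iff_not_dvd]
  intro hd
  have h1 : ((c : ℤ) * (n * w.val : ℕ) - 0) ∣ g.eval ((c : ℤ) * (n * w.val : ℕ)) - g.eval 0 :=
    sub_dvd_eval_sub _ _ _
  rw [sub_zero] at h1
  have h2 : (p : ℤ) ∣ (c : ℤ) * (n * w.val : ℕ) := by
    have h3 : (p : ℤ) ∣ (w.val : ℤ) := by exact_mod_cast hd
    push_cast
    exact (h3.mul_left _).mul_left _
  exact h.ndvd p hA ((dvd_sub_right hev).mp (h2.trans h1))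

theorem one_sub_pow_ge {d Y : ℕ} (hd : 2 * d ≤ Y) (hY : 0 < Y) :
    Real.exp (-(2 * d)) ≤ (1 - (d : ℝ) / Y) ^ Y := by
  have hYr : (0 : ℝ) < Y := by exact_mod_cast hY
  have hdr : (2 : ℝ) * d ≤ Y := by exact_mod_cast hd
  set x : ℝ := (d : ℝ) / Y with hx
  have hx0 : 0 ≤ x := by positivity
  have hx1 : 2 * x ≤ 1 := by
    rw [hx, ← mul_div_assoc, div_le_one hYr]
    exact hdr
  have h1 : Real.exp (-(2 * x)) ≤ 1 - x := by
    rw [Real.exp_neg, inv_le_comm₀ (Real.exp_pos _) (by linarith)]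
    have h2 := Real.add_one_le_exp (2 * x)
    refine le_trans ?_ h2
    rw [inv_le_iff_one_le_mul₀ (by linarith)]
    nlinarith
  have h2 : Real.exp (-(2 * d)) = (Real.exp (-(2 * x))) ^ Y := by
    rw [← Real.exp_nat_mul]
    congr 1
    rw [hx]
    field_simp
  rw [h2]
  exact pow_le_pow_left₀ (Real.exp_pos _).le h1 _

section final

variable {a m : ℕ} {g : ℤ[X]}

theorem mu_nonneg (p Y : ℕ) : 0 ≤ mu (Adm a m g) Y (FF (Adm a m g) g p Y) := by
  unfold mu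
  exact div_nonneg (Finset.sum_nonneg fun c _ => FF_nonneg _ _ _) (Nat.cast_nonneg _)

/-- the average decreases in a dyadic block -/
theorem mu_block (hm : 0 < m) (ham : a.Coprime m) (hg0 : g.eval 0 ≠ 0)
    (hroot : {q : ℕ | q.Prime ∧ q ≡ a [MOD m] ∧ ∀ n : ℤ, ¬ (q : ℤ) ∣ g.eval n}.Finite) {p : ℕ}
    (hp : Adm a m g p) (hr : ∃ r : ℤ, (p : ℤ) ∣ g.eval r) :
    ∃ (κ : ℝ) (j₀ : ℕ), 0 < κ ∧ ∀ j : ℕ, j₀ ≤ j →
      mu (Adm a m g) (2 ^ (j + 1)) (FF (Adm a m g) g p (2 ^ (j + 1))) ≤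
        (1 - κ / ((j : ℝ) + 1)) * mu (Adm a m g) (2 ^ j) (FF (Adm a m g) g p (2 ^ j)) := by
  classical
  set A := Adm a m g with hA
  have hgood : Good A g := good_adm a m g
  set δ : ℝ := ((p * m).totient : ℝ)⁻¹ / 4 with hδ
  have hδpos : 0 < δ := by
    rw [hδ]
    have : 0 < (p * m).totient := Nat.totient_pos.mpr (Nat.mul_pos hp.1.pos hm)
    positivity
  have hev : ∀ᶠ j : ℕ in atTop, ∀ t ∈ (range p).filter (fun t => t.Coprime p),
      δ / ((j : ℝ) + 1) ≤ SS A p t (2 ^ j) (2 ^ j) := by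
    rw [Filter.eventually_all_finset]
    intro t ht
    rw [Finset.mem_filter] at ht
    exact SS_lower hm ham hg0 hp ht.2
  obtain ⟨B, hB⟩ := hroot.bddAbove
  have hpow : Tendsto (fun j : ℕ => 2 ^ j) atTop (atTop : Filter ℕ) :=
    tendsto_pow_atTop_atTop_of_one_lt (by norm_num)
  obtain ⟨j₀, hj₀⟩ := eventually_atTop.mp
    (hev.and (hpow.eventually (eventually_ge_atTop (p + B + 2 * g.natDegree))))
  refine ⟨1 / 2 * (Real.exp (-(2 * g.natDegree)) * δ), j₀, by positivity, ?_⟩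
  intro j hj
  obtain ⟨h1, h2⟩ := hj₀ j hj
  set Y : ℕ := 2 ^ j with hY
  have hYpos : 0 < Y := by positivity
  have hYr : (0 : ℝ) < Y := by exact_mod_cast hYpos
  have hYY : 2 ^ (j + 1) = Y + Y := by
    rw [hY]
    ring
  rw [hYY, ← mu_VV p Y Y]
  set d := g.natDegree with hd
  set θ : ℝ := 1 - (d : ℝ) / Y with hθ
  have hdY : (d : ℝ) / Y ≤ 1 := by
    rw [div_le_one hYr]
    exact_mod_cast (by omega : d ≤ Y)
  have hθ0 : 0 ≤ θ := by linarith
  have hθ1 : θ ≤ 1 := by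
    have : 0 ≤ (d : ℝ) / Y := by positivity
    linarith
  have hθd : (d : ℝ) ≤ (1 - θ) * Y := by
    rw [hθ]
    have : (1 - (1 - (d : ℝ) / Y)) * Y = d := by
      field_simp
      ring
    rw [this]
  have hroot' : ∀ q, A q → Y < q → ∃ r : ℤ, (q : ℤ) ∣ g.eval r := by
    intro q hq hYq
    by_contra hno
    push Not at hno
    have := hB ⟨hq.1, hq.2.1, hno⟩
    omega
  have hpow2 : Real.exp (-(2 * d)) ≤ θ ^ Y := one_sub_pow_ge (by omega) hYpos
  have hpt : ∀ c, VV A g p Y Y c ≤ (1 - 1 / 2 * (Real.exp (-(2 * d)) * δ) / ((j : ℝ) + 1)) *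
      FF A g p Y c := by
    intro c
    by_cases hc : p ∣ c ∨ p ∣ NY A g Y c
    · have h3 := VV_le hgood hp Y Y c (by omega)
      rw [FF_zero hc] at h3 ⊢
      linarith
    · have h3 := not_or.mp hc
      obtain ⟨t, ht1, ht2, ht3⟩ := exists_target hgood hp h3.1 h3.2 hr
      have h4 := VV_block hgood hp (by omega : p ≤ Y) hroot' hθ0 hθ1 hθd Y Y c t le_rfl ht3
      refine h4.trans ?_
      rw [mul_comm]
      refine mul_le_mul_of_nonneg_right ?_ (FF_nonneg _ _ _)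
      have h5 := h1 t (Finset.mem_filter.mpr ⟨Finset.mem_range.mpr ht1, ht2⟩)
      have h6 : Real.exp (-(2 * d)) * (δ / ((j : ℝ) + 1)) ≤ θ ^ Y * SS A p t Y Y :=
        mul_le_mul hpow2 h5 (by positivity) (by positivity)
      have h7 : 1 / 2 * (Real.exp (-(2 * (d : ℝ))) * δ) / ((j : ℝ) + 1) =
          1 / 2 * (Real.exp (-(2 * d)) * (δ / ((j : ℝ) + 1))) := by ring
      rw [h7]
      linarith
  unfold mu
  rw [← mul_div_assoc]
  refine div_le_div_of_nonneg_right ?_ (Nat.cast_nonneg _)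
  rw [Finset.mul_sum]
  exact Finset.sum_le_sum fun c _ => hpt c

/-- the averages tend to zero (along the powers of two) -/
theorem exists_small (hm : 0 < m) (ham : a.Coprime m) (hg0 : g.eval 0 ≠ 0)
    (hroot : {q : ℕ | q.Prime ∧ q ≡ a [MOD m] ∧ ∀ n : ℤ, ¬ (q : ℤ) ∣ g.eval n}.Finite) {p : ℕ}
    (hp : Adm a m g p) (hr : ∃ r : ℤ, (p : ℤ) ∣ g.eval r) {ε : ℝ} (hε : 0 < ε) :
    ∃ Y : ℕ, p ≤ Y ∧ mu (Adm a m g) Y (FF (Adm a m g) g p Y) ≤ ε := by
  obtain ⟨κ, j₀, hκ, hstep⟩ := mu_block hm ham hg0 hroot hp hr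
  set b : ℕ → ℝ := fun j => mu (Adm a m g) (2 ^ j) (FF (Adm a m g) g p (2 ^ j)) with hb
  have hb0 : ∀ j, 0 ≤ b j := fun j => mu_nonneg p _
  have hM : ∀ Y, (0 : ℝ) < MM (Adm a m g) Y := fun Y => by
    exact_mod_cast MM_pos (good_adm a m g) Y
  have hb1 : ∀ j, b j ≤ 1 := by
    intro j
    simp only [hb, mu]
    rw [div_le_one (hM _)]
    calc ∑ c ∈ range (MM (Adm a m g) (2 ^ j)), FF (Adm a m g) g p (2 ^ j) c ≤
        ∑ c ∈ range (MM (Adm a m g) (2 ^ j)), (1 : ℝ) := Finset.sum_le_sum fun c _ => FF_le_one _ _ _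
      _ = _ := by simp
  have hexp : ∀ n : ℕ, b (j₀ + n) ≤
      Real.exp (-(κ * (∑ i ∈ range (j₀ + n), 1 / ((i : ℝ) + 1) - ∑ i ∈ range j₀, 1 / ((i : ℝ) + 1)))) := by
    intro n
    induction n with
    | zero => simpa using hb1 j₀
    | succ n ih =>
      have h1 := hstep (j₀ + n) (by omega)
      have h2 : b (j₀ + n + 1) ≤ (1 - κ / (((j₀ + n : ℕ) : ℝ) + 1)) * b (j₀ + n) := h1
      have h3 : 1 - κ / (((j₀ + n : ℕ) : ℝ) + 1) ≤ Real.exp (-(κ / (((j₀ + n : ℕ) : ℝ) + 1))) := by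
        have := Real.add_one_le_exp (-(κ / (((j₀ + n : ℕ) : ℝ) + 1)))
        linarith
      rw [show j₀ + (n + 1) = j₀ + n + 1 by ring]
      calc b (j₀ + n + 1) ≤ (1 - κ / (((j₀ + n : ℕ) : ℝ) + 1)) * b (j₀ + n) := h2
        _ ≤ Real.exp (-(κ / (((j₀ + n : ℕ) : ℝ) + 1))) * b (j₀ + n) :=
            mul_le_mul_of_nonneg_right h3 (hb0 _)
        _ ≤ Real.exp (-(κ / (((j₀ + n : ℕ) : ℝ) + 1))) * _ :=
            mul_le_mul_of_nonneg_left ih (Real.exp_pos _).le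
        _ = _ := by
            rw [← Real.exp_add, Finset.sum_range_succ]
            congr 1
            ring
  have htend := Real.tendsto_sum_range_one_div_nat_succ_atTop
  set T : ℝ := (∑ i ∈ range j₀, 1 / ((i : ℝ) + 1)) + (-Real.log ε) / κ with hT
  obtain ⟨n, hn1, hn2⟩ := ((htend.eventually_ge_atTop T).and
    (eventually_ge_atTop (j₀ + p))).exists
  refine ⟨2 ^ n, ?_, ?_⟩
  · have : n < 2 ^ n := Nat.lt_two_pow_self
    omega
  · obtain ⟨k, rfl⟩ : ∃ k, n = j₀ + k := ⟨n - j₀, by omega⟩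
    refine (hexp k).trans ?_
    rw [← Real.log_le_log_iff (Real.exp_pos _) hε, Real.log_exp]
    have h1 : -Real.log ε / κ ≤ ∑ i ∈ range (j₀ + k), 1 / ((i : ℝ) + 1) -
        ∑ i ∈ range j₀, 1 / ((i : ℝ) + 1) := by linarith
    rw [div_le_iff₀ hκ] at h1
    linarith

/-- the averages decrease -/
theorem mu_mono {p : ℕ} (hp : Adm a m g p) {Y Y' : ℕ} (hpY : p ≤ Y) (hY : Y ≤ Y') :
    mu (Adm a m g) Y' (FF (Adm a m g) g p Y') ≤ mu (Adm a m g) Y (FF (Adm a m g) g p Y) := by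
  obtain ⟨n, rfl⟩ : ∃ n, Y' = Y + n := ⟨Y' - Y, by omega⟩
  rw [← mu_VV p n Y]
  unfold mu
  refine div_le_div_of_nonneg_right ?_ (Nat.cast_nonneg _)
  exact Finset.sum_le_sum fun c _ => VV_le (good_adm a m g) hp n Y c hpY

/-- the proportion of the seeds modulo `MM Y` for which `p` is missing at the level `Y` -/
theorem eventually_few (hm : 0 < m) (ham : a.Coprime m) (hg0 : g.eval 0 ≠ 0)
    (hroot : {q : ℕ | q.Prime ∧ q ≡ a [MOD m] ∧ ∀ n : ℤ, ¬ (q : ℤ) ∣ g.eval n}.Finite) {p : ℕ}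
    (hp : Adm a m g p) (hr : ∃ r : ℤ, (p : ℤ) ∣ g.eval r) {ε : ℝ} (hε : 0 < ε) :
    ∀ᶠ Y : ℕ in atTop, ∀ S : Finset ℕ, (∀ c ∈ S, c < MM (Adm a m g) Y ∧ ¬ p ∣ c ∧
      ¬ p ∣ NY (Adm a m g) g Y c) → (S.card : ℝ) ≤ ε * MM (Adm a m g) Y := by
  obtain ⟨Y₀, hY₀, hmu₀⟩ := exists_small hm ham hg0 hroot hp hr
    (show 0 < ε * (1 / 2 : ℝ) ^ p by positivity)
  filter_upwards [eventually_ge_atTop Y₀] with Y hY S hS
  have hmu := (mu_mono hp hY₀ hY).trans hmu₀
  have hM : (0 : ℝ) < MM (Adm a m g) Y := by exact_mod_cast MM_pos (good_adm a m g) Y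
  unfold mu at hmu
  rw [div_le_iff₀ hM] at hmu
  have h1 : (S.card : ℝ) * (1 / 2 : ℝ) ^ p ≤ ∑ c ∈ range (MM (Adm a m g) Y),
      FF (Adm a m g) g p Y c := by
    rw [← nsmul_eq_mul]
    calc S.card • (1 / 2 : ℝ) ^ p ≤ ∑ c ∈ S, FF (Adm a m g) g p Y c := by
          refine Finset.card_nsmul_le_sum _ _ _ fun c hc => ?_
          exact FF_lower (hS c hc).2.1 (hS c hc).2.2
      _ ≤ _ := by
          refine Finset.sum_le_sum_of_subset_of_nonneg ?_ fun c _ _ => FF_nonneg _ _ _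
          intro c hc
          exact Finset.mem_range.mpr (hS c hc).1
  have h2 : (0 : ℝ) < (1 / 2 : ℝ) ^ p := by positivity
  have h3 : (S.card : ℝ) * (1 / 2 : ℝ) ^ p ≤ (ε * MM (Adm a m g) Y) * (1 / 2 : ℝ) ^ p := by
    calc _ ≤ _ := h1.trans hmu
      _ = _ := by ring
  exact le_of_mul_le_mul_right h3 h2

/-- **the theorem in terms of residue classes of the seed** -/
theorem few_classes (hm : 0 < m) (ham : a.Coprime m) (hg0 : g.eval 0 ≠ 0)
    (hroot : {q : ℕ | q.Prime ∧ q ≡ a [MOD m] ∧ ∀ n : ℤ, ¬ (q : ℤ) ∣ g.eval n}.Finite) (y : ℕ)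
    {ε : ℝ} (hε : 0 < ε) :
    ∃ M K : ℕ, 0 < M ∧ ∃ R : Finset ℕ, (R.card : ℝ) ≤ ε * M ∧ ∀ c : ℕ, c % M ∉ R →
      ∀ p, p ≤ y → Adm a m g p → ¬ p ∣ c → (∃ r : ℤ, (p : ℤ) ∣ g.eval r) →
        p ∣ NN (Adm a m g) g c K := by
  classical
  set A := Adm a m g with hA
  have hgood : Good A g := good_adm a m g
  set P := (range (y + 1)).filter (fun p => A p ∧ ∃ r : ℤ, (p : ℤ) ∣ g.eval r) with hP
  set ε' : ℝ := ε / (y + 1) with hε'
  have hε'pos : 0 < ε' := by positivity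
  have hev : ∀ᶠ Y : ℕ in atTop, ∀ p ∈ P, ∀ S : Finset ℕ, (∀ c ∈ S, c < MM A Y ∧ ¬ p ∣ c ∧
      ¬ p ∣ NY A g Y c) → (S.card : ℝ) ≤ ε' * MM A Y := by
    rw [Filter.eventually_all_finset]
    intro p hp
    rw [hP, Finset.mem_filter] at hp
    exact eventually_few hm ham hg0 hroot hp.2.1 hp.2.2 hε'pos
  obtain ⟨Y, hY, hYy⟩ := (hev.and (eventually_ge_atTop y)).exists
  have hMpos : 0 < MM A Y := MM_pos hgood Y
  set Rp : ℕ → Finset ℕ := fun p => (range (MM A Y)).filter fun c => ¬ p ∣ c ∧ ¬ p ∣ NY A g Y c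
    with hRp
  refine ⟨MM A Y, Y + 2, hMpos, P.biUnion Rp, ?_, ?_⟩
  · have h1 : ∀ p ∈ P, ((Rp p).card : ℝ) ≤ ε' * MM A Y := by
      intro p hp
      refine hY p hp _ fun c hc => ?_
      rw [hRp, Finset.mem_filter, Finset.mem_range] at hc
      exact hc
    have h2 : ((P.biUnion Rp).card : ℝ) ≤ ∑ p ∈ P, ((Rp p).card : ℝ) := by
      exact_mod_cast Finset.card_biUnion_le
    have h3 : (P.card : ℝ) ≤ y + 1 := by
      have := Finset.card_filter_le (range (y + 1)) (fun p => A p ∧ ∃ r : ℤ, (p : ℤ) ∣ g.eval r)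
      rw [Finset.card_range] at this
      exact_mod_cast this
    calc ((P.biUnion Rp).card : ℝ) ≤ ∑ p ∈ P, ((Rp p).card : ℝ) := h2
      _ ≤ ∑ p ∈ P, ε' * MM A Y := Finset.sum_le_sum h1
      _ = P.card * (ε' * MM A Y) := by rw [Finset.sum_const, nsmul_eq_mul]
      _ ≤ (y + 1) * (ε' * MM A Y) := mul_le_mul_of_nonneg_right h3 (by positivity)
      _ = ε * MM A Y := by
          rw [hε']
          field_simp
  · intro c hc p hpy hpA hpc hr
    have hpP : p ∈ P := by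
      rw [hP, Finset.mem_filter, Finset.mem_range]
      exact ⟨by omega, hpA, hr⟩
    have h1 : c % MM A Y ∉ Rp p := fun h => hc (Finset.mem_biUnion.mpr ⟨p, hpP, h⟩)
    rw [hRp, Finset.mem_filter, Finset.mem_range] at h1
    have hcg : Cg A Y c (c % MM A Y) := by
      have h2 := Cg_add (A := A) Y (c % MM A Y) (c / MM A Y)
      rwa [mul_comm, Nat.mod_add_div] at h2
    have h3 : ¬ p ∣ c % MM A Y := by
      intro h4
      apply hpc
      have h5 := (hcg p hpA (by omega)).symm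
      rw [← Int.natCast_dvd_natCast, Int.dvd_iff_emod_eq_zero] at h4 ⊢
      rw [← h5]
      exact h4
    have h4 : p ∣ NY A g Y (c % MM A Y) := by
      by_contra h5
      exact h1 ⟨Nat.mod_lt _ hMpos, h3, h5⟩
    rw [← NY_eq hgood hcg] at h4
    exact h4.trans (NY_dvd_NN hgood Y c)

end final

section density

/-- the set `S` has natural density zero -/
def DZ (S : Set ℕ) : Prop := ∀ ε : ℝ, 0 < ε → ∃ X₀ : ℕ, ∀ X : ℕ, X₀ ≤ X →
  ((S ∩ Set.Iic X).ncard : ℝ) ≤ ε * X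

theorem card_classes (M : ℕ) (R : Finset ℕ) (X : ℕ) :
    ({c : ℕ | c % M ∈ R} ∩ Set.Iic X).ncard ≤ (X / M + 1) * R.card := by
  classical
  have h1 : ({c : ℕ | c % M ∈ R} ∩ Set.Iic X) = ((Finset.Iic X).filter fun c => c % M ∈ R : Finset ℕ) := by
    ext c
    simp [and_comm]
  rw [h1, Set.ncard_coe_finset]
  calc ((Finset.Iic X).filter fun c => c % M ∈ R).card ≤ (range (X / M + 1) ×ˢ R).card := by
        refine Finset.card_le_card_of_injOn (fun c => (c / M, c % M)) ?_ ?_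
        · intro c hc
          rw [Finset.mem_coe, Finset.mem_filter, Finset.mem_Iic] at hc
          rw [Finset.mem_coe, Finset.mem_product, Finset.mem_range]
          exact ⟨Nat.lt_succ_of_le (Nat.div_le_div_right hc.1), hc.2⟩
        · intro c _ c' _ he
          have h2 := Prod.mk.inj he
          rw [← Nat.div_add_mod c M, ← Nat.div_add_mod c' M, h2.1, h2.2]
    _ = _ := by rw [Finset.card_product, Finset.card_range]

theorem DZ_of_classes (S : Set ℕ) (F : Set ℕ) (hF : F.Finite)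
    (h : ∀ ε : ℝ, 0 < ε → ∃ M : ℕ, 0 < M ∧ ∃ R : Finset ℕ, (R.card : ℝ) ≤ ε * M ∧
      ∀ c ∈ S, c ∉ F → c % M ∈ R) : DZ S := by
  intro ε hε
  obtain ⟨M, hM, R, hR, hS⟩ := h (ε / 2) (by positivity)
  have hMr : (0 : ℝ) < M := by exact_mod_cast hM
  obtain ⟨X₀, hX₀⟩ := exists_nat_ge ((ε / 2 * M + F.ncard) / (ε / 2))
  refine ⟨X₀, fun X hX => ?_⟩
  have h1 : S ∩ Set.Iic X ⊆ ({c : ℕ | c % M ∈ R} ∩ Set.Iic X) ∪ F := by
    rintro c ⟨hc, hcX⟩
    by_cases hcF : c ∈ F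
    · exact Or.inr hcF
    · exact Or.inl ⟨hS c hc hcF, hcX⟩
  have hfin : (({c : ℕ | c % M ∈ R} ∩ Set.Iic X) ∪ F).Finite :=
    ((Set.finite_Iic X).inter_of_right _).union hF
  have h2 := (Set.ncard_le_ncard h1 hfin).trans (Set.ncard_union_le _ _)
  have h3 := card_classes M R X
  have h4 : ((S ∩ Set.Iic X).ncard : ℝ) ≤ ((X / M : ℕ) + 1) * R.card + F.ncard := by
    have : (S ∩ Set.Iic X).ncard ≤ (X / M + 1) * R.card + F.ncard := by omega
    exact_mod_cast this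
  have h5 : ((X / M : ℕ) : ℝ) ≤ (X : ℝ) / M := Nat.cast_div_le
  have h6 : (((X / M : ℕ) : ℝ) + 1) * R.card ≤ ((X : ℝ) / M + 1) * (ε / 2 * M) :=
    mul_le_mul (by linarith) hR (Nat.cast_nonneg _) (by positivity)
  have h7 : ((X : ℝ) / M + 1) * (ε / 2 * M) = ε / 2 * X + ε / 2 * M := by
    field_simp
  have h8 : (ε / 2 * M + F.ncard) ≤ ε / 2 * X := by
    have h9 : (X₀ : ℝ) ≤ X := by exact_mod_cast hX
    have h10 := hX₀.trans h9
    rw [div_le_iff₀ (by positivity)] at h10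
    linarith
  linarith

/-- the diagonal argument -/
theorem diagonal (E : ℕ → Set ℕ) (hmono : Monotone E) (h : ∀ n, DZ (E n)) :
    ∃ y : ℕ → ℕ, Tendsto y atTop atTop ∧ DZ {c | c ∈ E (y c)} := by
  choose X₀ hX₀ using fun n : ℕ => h n (1 / ((n : ℝ) + 1)) (by positivity)
  set T : ℕ → ℕ := fun n => n + ∑ i ∈ range (n + 1), X₀ i with hT
  have hTmono : Monotone T := by
    intro n n' hn
    simp only [hT]
    refine Nat.add_le_add hn ?_
    refine Finset.sum_le_sum_of_subset ?_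
    exact Finset.range_subset_range.mpr (by omega)
  have hTn : ∀ n, n ≤ T n := fun n => Nat.le_add_right _ _
  have hTX : ∀ n, X₀ n ≤ T n := by
    intro n
    simp only [hT]
    exact (Finset.single_le_sum (f := X₀) (fun i _ => Nat.zero_le _)
      (Finset.mem_range.mpr (Nat.lt_succ_self n))).trans (Nat.le_add_left _ _)
  set y : ℕ → ℕ := fun c => Nat.findGreatest (fun n => T n ≤ c) c with hy
  have hyge : ∀ n c, T n ≤ c → n ≤ y c := fun n c hc =>
    Nat.le_findGreatest ((hTn n).trans hc) hc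
  have hyT : ∀ c, T 0 ≤ c → T (y c) ≤ c := fun c hc =>
    Nat.findGreatest_spec (P := fun n => T n ≤ c) (Nat.zero_le c) hc
  have hymono : ∀ c c', c ≤ c' → y c ≤ y c' := by
    intro c c' hc
    by_cases h0 : T 0 ≤ c
    · exact hyge _ _ ((hyT c h0).trans hc)
    · have : y c = 0 := by
        simp only [hy]
        rw [Nat.findGreatest_eq_zero_iff]
        intro n _ _ hn
        exact h0 ((hTmono (Nat.zero_le n)).trans hn)
      omega
  have hytend : Tendsto y atTop atTop := by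
    rw [tendsto_atTop]
    intro n
    filter_upwards [eventually_ge_atTop (T n)] with c hc
    exact hyge n c hc
  refine ⟨y, hytend, ?_⟩
  intro ε hε
  obtain ⟨k, hk⟩ := exists_nat_ge (1 / ε)
  refine ⟨T k + T 0, fun X hX => ?_⟩
  have h0 : T 0 ≤ X := by omega
  have hkX : k ≤ y X := hyge k X (by omega)
  have h1 : {c | c ∈ E (y c)} ∩ Set.Iic X ⊆ E (y X) ∩ Set.Iic X := by
    rintro c ⟨hc, hcX⟩
    exact ⟨hmono (hymono c X hcX) hc, hcX⟩
  have hfin : (E (y X) ∩ Set.Iic X).Finite := (Set.finite_Iic X).inter_of_right _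
  have h2 := Set.ncard_le_ncard h1 hfin
  have h3 := hX₀ (y X) X ((hTX (y X)).trans (hyT X h0))
  have h4 : (1 : ℝ) / ((y X : ℝ) + 1) ≤ ε := by
    have h5 : (k : ℝ) ≤ y X := by exact_mod_cast hkX
    rw [div_le_iff₀ (by positivity)]
    rw [div_le_iff₀ hε] at hk
    nlinarith
  calc (({c | c ∈ E (y c)} ∩ Set.Iic X).ncard : ℝ) ≤ ((E (y X) ∩ Set.Iic X).ncard : ℝ) := by
        exact_mod_cast h2
    _ ≤ 1 / ((y X : ℝ) + 1) * X := h3
    _ ≤ ε * X := mul_le_mul_of_nonneg_right h4 (Nat.cast_nonneg _)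

end density

end Pool.Agent.Work.MP_75c89d_seeds
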